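import Pool.Agent.Y489.EN.Stm
import Pool.Agent.Helper206.BoxS.IoD

/-!
# Project EN: continuous injective maps of planar discs to the sphere are open (helper949)
-/

set_option autoImplicit false
open Filter Topology Metric Set

namespace Pool.Agent.Y949.EN

open Pool.Agent.Y320.CM Pool.Agent.Y489.EN

theorem t_OPEN : S_OPEN := by
  intro F hc hi A r hA
  rw [isOpen_iff_mem_nhds]
  rintro _ ⟨z0, hz0, rfl⟩
  have hfact : Fact (Module.finrank ℝ (EuclideanSpace ℝ (Fin 3)) = 2 + 1) :=
    ⟨by simp⟩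
  let s := stereographic' 2 (-(F z0))
  have hsrc : s.source = {-(F z0)}ᶜ := stereographic'_source (-(F z0))
  have hmem0 : F z0 ∈ s.source := by
    rw [hsrc]
    have := ne_neg_of_mem_unit_sphere ℝ (F z0)
    simpa using this
  have hcA : ContinuousAt F z0 := hc.continuousAt (isOpen_ball.mem_nhds (hA hz0))
  have hN : {z | F z ∈ s.source} ∩ ball A r ∈ 𝓝 z0 :=
    inter_mem (hcA.preimage_mem_nhds (s.open_source.mem_nhds hmem0)) (isOpen_ball.mem_nhds hz0)
  obtain ⟨ε, hε, hsub⟩ := nhds_basis_closedBall.mem_iff.1 hN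
  let e : ℂ ≃ₗᵢ[ℝ] EuclideanSpace ℝ (Fin 2) := Complex.orthonormalBasisOneI.repr
  let f : EuclideanSpace ℝ (Fin 2) → EuclideanSpace ℝ (Fin 2) := fun y => s (F (e.symm y))
  have hmaps : ∀ y ∈ closedBall (e z0) ε, e.symm y ∈ closedBall z0 ε := by
    intro y hy
    rw [mem_closedBall] at hy ⊢
    rw [← e.dist_map, e.apply_symm_apply]
    exact hy
  have hfc : ContinuousOn f (closedBall (e z0) ε) := by
    have h1 : ContinuousOn (fun y => F (e.symm y)) (closedBall (e z0) ε) :=
      hc.comp e.symm.continuous.continuousOn (fun y hy => hA (hsub (hmaps y hy)).2)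
    exact s.continuousOn.comp h1 (fun y hy => (hsub (hmaps y hy)).1)
  have hfi : InjOn f (closedBall (e z0) ε) := by
    intro y hy w hw h
    have h1 : F (e.symm y) = F (e.symm w) := s.injOn (hsub (hmaps y hy)).1 (hsub (hmaps w hw)).1 h
    have h2 := hi (hA (hsub (hmaps y hy)).2) (hA (hsub (hmaps w hw)).2) h1
    exact e.symm.injective h2
  have hmem := Pool.Agent.Helper206.BoxS.IoD.image_mem_nhds f (e z0) ε hε hfc hfi
  have hf0 : f (e z0) = s (F z0) := by
    show s (F (e.symm (e z0))) = s (F z0)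
    rw [e.symm_apply_apply]
  rw [hf0] at hmem
  have h3 : {q | s q ∈ f '' closedBall (e z0) ε} ∩ s.source ∈ 𝓝 (F z0) :=
    inter_mem ((s.continuousAt hmem0).preimage_mem_nhds hmem) (s.open_source.mem_nhds hmem0)
  refine mem_of_superset h3 ?_
  rintro q ⟨⟨y, hy, hyq⟩, hq⟩
  have h4 : F (e.symm y) = q := s.injOn (hsub (hmaps y hy)).1 hq hyq
  exact ⟨e.symm y, (hsub (hmaps y hy)).2, h4⟩

end Pool.Agent.Y949.EN
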